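import Pool.Agent.Q236.CR.Stm

set_option autoImplicit false

/-! Project CR (helper236), job SIC. -/

namespace Pool.Agent.Q198.CR

open Finset Filter MeasureTheory
open Pool.Agent.Q236.CR

lemma nt_norm (τ : ℝ) {n : ℕ} (hn : 1 ≤ n) : ‖nt τ n‖ = 1 := by
  unfold nt
  rw [Complex.norm_natCast_cpow_of_pos (by omega)]
  simp

lemma nt_zero (n : ℕ) : nt 0 n = 1 := by
  unfold nt; simp

lemma nt_cont {n : ℕ} (hn : 1 ≤ n) : Continuous fun τ : ℝ => nt τ n := by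
  unfold nt
  exact Continuous.const_cpow (by fun_prop) (Or.inl (by exact_mod_cast (by omega : n ≠ 0)))

lemma poly_cont (a : ℕ → ℂ) (x1 x2 : ℕ) : Continuous fun τ : ℝ => ∑ n ∈ Ioc x1 x2, a n * nt τ n :=
  continuous_finsetSum _ fun n hn => continuous_const.mul (nt_cont (by rw [mem_Ioc] at hn; omega))

lemma nsq_sub (a b : ℂ) : ‖a - b‖ ^ 2 ≤ 2 * ‖a‖ ^ 2 + 2 * ‖b‖ ^ 2 := by
  have h1 : ‖a - b‖ ^ 2 ≤ (‖a‖ + ‖b‖) ^ 2 := pow_le_pow_left₀ (norm_nonneg _) (norm_sub_le a b) 2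
  nlinarith [sq_nonneg (‖a‖ - ‖b‖)]

/-- the integral of the trivial bound -/
lemma int_triv {x P T : ℝ} (hP : 0 < P) (hPT : P ≤ T) :
    ∫ τ in P..T, (x ^ 2 / τ ^ 2 + τ ^ 2) ≤ x ^ 2 / P + T ^ 3 := by
  have hT : 0 < T := hP.trans_le hPT
  have h1 : ∫ τ in P..T, (x ^ 2 / τ ^ 2 + τ ^ 2) =
      (-(x ^ 2 / T) + T ^ 3 / 3) - (-(x ^ 2 / P) + P ^ 3 / 3) := by
    refine intervalIntegral.integral_eq_sub_of_hasDerivAt (f := fun τ => -(x ^ 2 / τ) + τ ^ 3 / 3)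
      (fun τ hτ => ?_) ?_
    · rw [Set.uIcc_of_le hPT] at hτ
      have hτ0 : τ ≠ 0 := (hP.trans_le hτ.1).ne'
      have h2 := (((hasDerivAt_inv hτ0).const_mul (x ^ 2)).neg).add ((hasDerivAt_pow 3 τ).div_const 3)
      refine (h2.congr_deriv ?_).congr_of_eventuallyEq (Eventually.of_forall fun u => ?_)
      · field_simp
        norm_num
        ring
      · simp only [Pi.add_apply, Pi.neg_apply, div_eq_mul_inv]
    · refine ContinuousOn.intervalIntegrable fun τ hτ => ?_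
      rw [Set.uIcc_of_le hPT] at hτ
      have hτ0 : τ ≠ 0 := (hP.trans_le hτ.1).ne'
      exact ((continuousAt_const.div (continuousAt_id.pow 2) (by simpa using hτ0)).add
        (continuousAt_id.pow 2)).continuousWithinAt
  rw [h1]
  have h2 : 0 ≤ x ^ 2 / T := by positivity
  have h3 : 0 ≤ P ^ 3 := by positivity
  have h4 : 0 ≤ T ^ 3 := by positivity
  linarith

/-- the constant function: covering by four blocks -/
lemma nt_blocks {CF : ℝ} (hFD : ∀ (q : ℕ) (_ : NeZero q) (χ : DirichletCharacter ℂ q) (M u v : ℕ) (τ : ℝ),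
    1 ≤ M → M ≤ u + 1 → v ≤ 2 * M → 1 ≤ |τ| →
    ‖∑ n ∈ Finset.Ioc u v, χ (n : ZMod q) * nt τ n‖ ≤ CF * (M / |τ| + q * |τ|) ∧
    ‖∑ n ∈ Finset.Ioc u v, (χ (n : ZMod q) * (Real.log n : ℂ)) * nt τ n‖ ≤
      CF * (M / |τ| + q * |τ|) * (1 + Real.log M)) (hCF : 0 ≤ CF) {x : ℕ} (hx : 1 ≤ x) {τ : ℝ} (hτ : 1 ≤ |τ|) :
    ‖∑ n ∈ Ioc x (9 * x), nt τ n‖ ≤ 15 * CF * (x / |τ| + |τ|) := by
  have key : ∀ M v : ℕ, 1 ≤ M → v ≤ 2 * M → ‖∑ n ∈ Ioc M v, nt τ n‖ ≤ CF * (M / |τ| + |τ|) := by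
    intro M v hM hv
    have h1 := (hFD 1 ⟨one_ne_zero⟩ 1 M M v τ hM (by omega) hv hτ).1
    have h2 : ∀ n ∈ Ioc M v, (1 : DirichletCharacter ℂ 1) (n : ZMod 1) * nt τ n = nt τ n := by
      intro n _
      rw [MulChar.one_apply (isUnit_of_subsingleton _), one_mul]
    rw [sum_congr rfl h2] at h1
    simpa using h1
  have hs : ∑ n ∈ Ioc x (9 * x), nt τ n = ∑ n ∈ Ioc x (2 * x), nt τ n + ∑ n ∈ Ioc (2 * x) (4 * x), nt τ n +
      ∑ n ∈ Ioc (4 * x) (8 * x), nt τ n + ∑ n ∈ Ioc (8 * x) (9 * x), nt τ n := by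
    rw [sum_Ioc_consecutive _ (by omega) (by omega), sum_Ioc_consecutive _ (by omega) (by omega),
      sum_Ioc_consecutive _ (by omega) (by omega)]
  have h1 := key x (2 * x) hx le_rfl
  have h2 := key (2 * x) (4 * x) (by omega) (by omega)
  have h3 := key (4 * x) (8 * x) (by omega) (by omega)
  have h4 := key (8 * x) (9 * x) (by omega) (by omega)
  rw [hs]
  refine (norm_add_le _ _).trans ?_
  refine (add_le_add ((norm_add_le _ _).trans (add_le_add (norm_add_le _ _) le_rfl)) le_rfl).trans ?_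
  push_cast at h1 h2 h3 h4
  have h5 : 0 ≤ CF * |τ| := by positivity
  calc _ ≤ CF * (x / |τ| + |τ|) + CF * (2 * x / |τ| + |τ|) + CF * (4 * x / |τ| + |τ|) +
        CF * (8 * x / |τ| + |τ|) := by linarith
    _ = 15 * CF * (x / |τ|) + 4 * (CF * |τ|) := by ring
    _ ≤ 15 * CF * (x / |τ|) + 15 * (CF * |τ|) := by linarith
    _ = _ := by ring

/-- the mean square of the Dirichlet polynomial -/
lemma sic_core {c : ℕ → ℂ} {d : ℂ} (hd : ‖d‖ ≤ 1) {x : ℕ} {P T CF E1 E2 : ℝ} (hP : 1 ≤ P)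
    (hPT : P ≤ T)
    (hnt : ∀ τ : ℝ, 1 ≤ |τ| → ‖∑ n ∈ Ioc x (9 * x), nt τ n‖ ≤ 15 * CF * (x / |τ| + |τ|))
    (h1 : ∫ τ in P..T, ‖∑ n ∈ Ioc x (9 * x), c n * nt τ n‖ ^ 2 ≤ E1)
    (h2 : ∫ τ in (-T)..(-P), ‖∑ n ∈ Ioc x (9 * x), c n * nt τ n‖ ^ 2 ≤ E1)
    (h3 : ∀ τ : ℝ, |τ| ≤ P → ‖∑ n ∈ Ioc x (9 * x), (c n - d) * nt τ n‖ ≤ E2) :
    ∫ τ in (-T)..T, ‖∑ n ∈ Ioc x (9 * x), (c n - d) * nt τ n‖ ^ 2 ≤
      4 * E1 + 2 * P * E2 ^ 2 + 1800 * CF ^ 2 * ((x : ℝ) ^ 2 / P + T ^ 3) := by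
  have hc1 := poly_cont (fun n => c n - d) x (9 * x)
  have hc2 := poly_cont c x (9 * x)
  have hc3 : Continuous fun τ : ℝ => ∑ n ∈ Ioc x (9 * x), nt τ n := by
    have := poly_cont (fun _ => 1) x (9 * x)
    simpa using this
  have hP0 : 0 < P := by linarith
  have hT0 : 0 < T := by linarith
  have hi : ∀ a b : ℝ, IntervalIntegrable (fun τ : ℝ => ‖∑ n ∈ Ioc x (9 * x), (c n - d) * nt τ n‖ ^ 2)
      volume a b := fun a b => (hc1.norm.pow 2).intervalIntegrable a b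
  have hpt : ∀ τ : ℝ, ‖∑ n ∈ Ioc x (9 * x), (c n - d) * nt τ n‖ ^ 2 ≤
      2 * ‖∑ n ∈ Ioc x (9 * x), c n * nt τ n‖ ^ 2 + 2 * ‖∑ n ∈ Ioc x (9 * x), nt τ n‖ ^ 2 := by
    intro τ
    have e1 : ∑ n ∈ Ioc x (9 * x), (c n - d) * nt τ n =
        ∑ n ∈ Ioc x (9 * x), c n * nt τ n - d * ∑ n ∈ Ioc x (9 * x), nt τ n := by
      rw [mul_sum, ← sum_sub_distrib]
      exact sum_congr rfl fun n _ => by ring
    rw [e1]
    refine (nsq_sub _ _).trans ?_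
    have e2 : ‖d * ∑ n ∈ Ioc x (9 * x), nt τ n‖ ≤ ‖∑ n ∈ Ioc x (9 * x), nt τ n‖ := by
      rw [norm_mul]
      exact mul_le_of_le_one_left (norm_nonneg _) hd
    have e3 := pow_le_pow_left₀ (norm_nonneg _) e2 2
    linarith
  have hsq : ∀ τ : ℝ, 1 ≤ |τ| → ‖∑ n ∈ Ioc x (9 * x), nt τ n‖ ^ 2 ≤
      450 * CF ^ 2 * ((x : ℝ) ^ 2 / τ ^ 2 + τ ^ 2) := by
    intro τ hτ
    have e1 := pow_le_pow_left₀ (norm_nonneg _) (hnt τ hτ) 2
    refine e1.trans ?_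
    have e2 : (x : ℝ) ^ 2 / τ ^ 2 = (x / |τ|) ^ 2 := by rw [div_pow, sq_abs]
    have e3 : τ ^ 2 = |τ| ^ 2 := by rw [sq_abs]
    rw [e2, e3]
    have e4 : (x / |τ| + |τ|) ^ 2 ≤ 2 * ((x / |τ|) ^ 2 + |τ| ^ 2) := by
      nlinarith [sq_nonneg (x / |τ| - |τ|)]
    calc (15 * CF * (x / |τ| + |τ|)) ^ 2 = 225 * CF ^ 2 * (x / |τ| + |τ|) ^ 2 := by ring
      _ ≤ 225 * CF ^ 2 * (2 * ((x / |τ|) ^ 2 + |τ| ^ 2)) :=
          mul_le_mul_of_nonneg_left e4 (by positivity)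
      _ = _ := by ring
  have hgi : IntervalIntegrable (fun τ : ℝ => (x : ℝ) ^ 2 / τ ^ 2 + τ ^ 2) volume P T := by
    refine ContinuousOn.intervalIntegrable fun τ hτ => ?_
    rw [Set.uIcc_of_le hPT] at hτ
    have hτ0 : τ ≠ 0 := (hP0.trans_le hτ.1).ne'
    exact ((continuousAt_const.div (continuousAt_id.pow 2) (by simpa using hτ0)).add
      (continuousAt_id.pow 2)).continuousWithinAt
  have hgi' : IntervalIntegrable (fun τ : ℝ => (x : ℝ) ^ 2 / τ ^ 2 + τ ^ 2) volume (-T) (-P) := by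
    refine ContinuousOn.intervalIntegrable fun τ hτ => ?_
    rw [Set.uIcc_of_le (by linarith)] at hτ
    have hτ0 : τ ≠ 0 := by have := hτ.2; intro h0; rw [h0] at this; linarith
    exact ((continuousAt_const.div (continuousAt_id.pow 2) (by simpa using hτ0)).add
      (continuousAt_id.pow 2)).continuousWithinAt
  have hint := int_triv (x := (x : ℝ)) hP0 hPT
  have hint' : ∫ τ in (-T)..(-P), ((x : ℝ) ^ 2 / τ ^ 2 + τ ^ 2) ≤ (x : ℝ) ^ 2 / P + T ^ 3 := by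
    rw [← intervalIntegral.integral_comp_neg]
    simpa using hint
  have hout : ∀ a b : ℝ, a ≤ b → (∀ τ ∈ Set.Icc a b, 1 ≤ |τ|) →
      IntervalIntegrable (fun τ : ℝ => (x : ℝ) ^ 2 / τ ^ 2 + τ ^ 2) volume a b →
      ∫ τ in a..b, ‖∑ n ∈ Ioc x (9 * x), c n * nt τ n‖ ^ 2 ≤ E1 →
      ∫ τ in a..b, ((x : ℝ) ^ 2 / τ ^ 2 + τ ^ 2) ≤ (x : ℝ) ^ 2 / P + T ^ 3 →
      ∫ τ in a..b, ‖∑ n ∈ Ioc x (9 * x), (c n - d) * nt τ n‖ ^ 2 ≤
        2 * E1 + 900 * CF ^ 2 * ((x : ℝ) ^ 2 / P + T ^ 3) := by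
    intro a b hab hτ hii hE hI
    have c2 : IntervalIntegrable (fun τ : ℝ => 2 * ‖∑ n ∈ Ioc x (9 * x), c n * nt τ n‖ ^ 2) volume a b :=
      (continuous_const.mul (hc2.norm.pow 2)).intervalIntegrable a b
    have e1 : ∫ τ in a..b, ‖∑ n ∈ Ioc x (9 * x), (c n - d) * nt τ n‖ ^ 2 ≤
        ∫ τ in a..b, (2 * ‖∑ n ∈ Ioc x (9 * x), c n * nt τ n‖ ^ 2 +
          900 * CF ^ 2 * ((x : ℝ) ^ 2 / τ ^ 2 + τ ^ 2)) := by
      refine intervalIntegral.integral_mono_on hab (hi a b)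
        (c2.add (hii.const_mul _)) fun τ hτ' => ?_
      have := hsq τ (hτ τ hτ')
      have := hpt τ
      linarith
    refine e1.trans ?_
    rw [intervalIntegral.integral_add c2 (hii.const_mul _), intervalIntegral.integral_const_mul, intervalIntegral.integral_const_mul]
    have e2 := mul_le_mul_of_nonneg_left hI (show 0 ≤ 900 * CF ^ 2 by positivity)
    linarith
  have k1 := hout P T hPT (fun τ hτ => hP.trans (hτ.1.trans (le_abs_self _))) hgi h1 hint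
  have k2 := hout (-T) (-P) (by linarith) (fun τ hτ => by
    have := neg_le_abs τ
    linarith [hτ.2]) hgi' h2 hint'
  have k3 : ∫ τ in (-P)..P, ‖∑ n ∈ Ioc x (9 * x), (c n - d) * nt τ n‖ ^ 2 ≤ 2 * P * E2 ^ 2 := by
    have e1 : ∫ τ in (-P)..P, ‖∑ n ∈ Ioc x (9 * x), (c n - d) * nt τ n‖ ^ 2 ≤ ∫ _τ in (-P)..P, E2 ^ 2 := by
      refine intervalIntegral.integral_mono_on (by linarith) (hi _ _)
        intervalIntegrable_const fun τ hτ => ?_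
      exact pow_le_pow_left₀ (norm_nonneg _) (h3 τ (abs_le.2 ⟨hτ.1, hτ.2⟩)) 2
    refine e1.trans (le_of_eq ?_)
    rw [intervalIntegral.integral_const, smul_eq_mul]
    ring
  rw [← intervalIntegral.integral_add_adjacent_intervals (hi (-T) (-P)) (hi (-P) T),
    ← intervalIntegral.integral_add_adjacent_intervals (hi (-P) P) (hi P T)]
  linarith

lemma sic_one {CW CF : ℝ} (hCW : 1 ≤ CW)
    {c : ℕ → ℂ} {d : ℂ} (hd : ‖d‖ ≤ 1) {x Y U C₀ C₁ : ℕ}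
    (hW : ∀ T : ℝ, 1 ≤ Y → 10 * Y ≤ x → 1 ≤ T →
      ∑ m ∈ Finset.Ioc x (2 * x), ‖∑ n ∈ Finset.Ioc m (m + Y), (c n - d)‖ ^ 2 ≤
        CW * ((Y : ℝ) ^ 2 / x) * (∫ τ in (-T)..T, ‖∑ n ∈ Finset.Ioc x (9 * x), (c n - d) * nt τ n‖ ^ 2) +
        CW * (x / T + (x : ℝ) ^ 2 * (1 + Real.log x) / T ^ 2) * ∑ n ∈ Finset.Ioc x (9 * x), ‖c n - d‖ ^ 2)
    (hnt : ∀ τ : ℝ, 1 ≤ |τ| → ‖∑ n ∈ Ioc x (9 * x), nt τ n‖ ≤ 15 * CF * (x / |τ| + |τ|))
    (hL100 : 100 ≤ Real.log x) (hLbig : CW * (6 + 3600 * CF ^ 2) + 216 * CW ≤ Real.log x)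
    (hnorm : ∀ n ∈ Ioc x (9 * x), ‖c n - d‖ ≤ 3 * Real.log x)
    (hDPL : ∀ T : ℝ, T * Real.log x ^ C₁ ≤ (x : ℝ) ^ (2 / 3 : ℝ) → Real.log x ^ C₀ ≤ T →
      ∫ τ in (Real.log x ^ C₀)..T, ‖∑ n ∈ Finset.Ioc x (9 * x), c n * nt τ n‖ ^ 2 ≤
        (x : ℝ) ^ 2 / Real.log x ^ (U + 5) ∧
      ∫ τ in (-T)..(-Real.log x ^ C₀), ‖∑ n ∈ Finset.Ioc x (9 * x), c n * nt τ n‖ ^ 2 ≤
        (x : ℝ) ^ 2 / Real.log x ^ (U + 5))
    (hLOW : ∀ τ : ℝ, |τ| ≤ Real.log x ^ C₀ → ∀ x1 x2 : ℕ, x ≤ x1 → x2 ≤ 9 * x →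
      ‖∑ n ∈ Finset.Ioc x1 x2, (c n - d) * nt τ n‖ ≤ x / Real.log x ^ (C₀ + U + 5))
    (hC0 : U + 5 ≤ C₀)
    (hx0 : Real.log x ^ (C₀ + (C₁ + U + 5)) ≤ (x : ℝ) ^ (2 / 3 : ℝ))
    (hY : (x : ℝ) ^ (1 / 3 : ℝ) * Real.log x ^ (U + 10 + (C₁ + U + 5)) ≤ Y) (hYx : Y ≤ x) :
    ∑ m ∈ Finset.Ioc x (2 * x), ‖∑ n ∈ Finset.Ioc m (m + Y), (c n - d)‖ ^ 2 ≤
      x * (Y : ℝ) ^ 2 / Real.log x ^ U := by
  set L := Real.log x with hL
  have hL1 : 1 ≤ L := by linarith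
  have hL0 : 0 < L := by linarith
  have hxR : (1 : ℝ) ≤ x := by
    rcases Nat.eq_zero_or_pos x with h0 | h0
    · rw [hL, h0] at hL100; simp at hL100; linarith
    · exact_mod_cast h0
  have hx00 : (0 : ℝ) < x := by linarith
  have hYR : (1 : ℝ) ≤ Y := by
    refine le_trans ?_ hY
    have h1 : (1 : ℝ) ≤ (x : ℝ) ^ (1 / 3 : ℝ) := Real.one_le_rpow hxR (by norm_num)
    have h2 : (1 : ℝ) ≤ L ^ (U + 10 + (C₁ + U + 5)) := one_le_pow₀ hL1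
    nlinarith
  have hY0 : (0 : ℝ) < Y := by linarith
  have hY1 : 1 ≤ Y := by exact_mod_cast hYR
  by_cases h10 : 10 * Y ≤ x
  swap
  · -- long windows
    have hw : ∀ m ∈ Ioc x (2 * x), ‖∑ n ∈ Finset.Ioc m (m + Y), (c n - d)‖ ^ 2 ≤ (Y : ℝ) ^ 2 / L ^ U := by
      intro m hm
      rw [mem_Ioc] at hm
      have h1 := hLOW 0 (by rw [abs_zero]; positivity) m (m + Y) hm.1.le (by omega)
      have h2 : ∑ n ∈ Ioc m (m + Y), (c n - d) * nt 0 n = ∑ n ∈ Ioc m (m + Y), (c n - d) :=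
        sum_congr rfl fun n _ => by rw [nt_zero, mul_one]
      rw [h2] at h1
      have h3 : (x : ℝ) / L ^ (C₀ + U + 5) ≤ Y / L ^ U := by
        rw [div_le_div_iff₀ (by positivity) (by positivity)]
        have h4 : (x : ℝ) ≤ 10 * Y := by
          have : x < 10 * Y := by omega
          exact_mod_cast this.le
        have h5 : (10 : ℝ) ≤ L ^ (C₀ + 5) := by
          calc (10 : ℝ) ≤ L ^ 1 := by rw [pow_one]; linarith
            _ ≤ _ := pow_le_pow_right₀ hL1 (by omega)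
        calc (x : ℝ) * L ^ U ≤ (10 * Y) * L ^ U := mul_le_mul_of_nonneg_right h4 (by positivity)
          _ = Y * L ^ U * 10 := by ring
          _ ≤ Y * L ^ U * L ^ (C₀ + 5) := mul_le_mul_of_nonneg_left h5 (by positivity)
          _ = _ := by ring
      have h6 := pow_le_pow_left₀ (norm_nonneg _) (h1.trans h3) 2
      refine h6.trans ?_
      rw [div_pow]
      refine div_le_div_of_nonneg_left (by positivity) (by positivity) ?_
      rw [← pow_mul]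
      exact pow_le_pow_right₀ hL1 (by omega)
    refine (sum_le_sum hw).trans (le_of_eq ?_)
    rw [sum_const, Nat.card_Ioc, show 2 * x - x = x by omega, nsmul_eq_mul]
    ring
  -- short windows
  set D := C₁ + U + 5 with hD
  set T : ℝ := max ((x : ℝ) / Y * L ^ (U + 10)) (L ^ C₀) with hT
  have hT1 : L ^ C₀ ≤ T := le_max_right _ _
  have hT2 : (x : ℝ) / Y * L ^ (U + 10) ≤ T := le_max_left _ _
  have hP1 : (1 : ℝ) ≤ L ^ C₀ := one_le_pow₀ hL1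
  have hT0 : 1 ≤ T := hP1.trans hT1
  have hTD : T * L ^ D ≤ (x : ℝ) ^ (2 / 3 : ℝ) := by
    rw [hT, max_mul_of_nonneg _ _ (by positivity)]
    refine max_le ?_ ?_
    · have h1 : (x : ℝ) ^ (1 / 3 : ℝ) * (x : ℝ) ^ (2 / 3 : ℝ) = x := by
        rw [← Real.rpow_add hx00]; norm_num
      have h2 : (x : ℝ) * L ^ (U + 10 + D) ≤ (x : ℝ) ^ (2 / 3 : ℝ) * Y := by
        calc (x : ℝ) * L ^ (U + 10 + D) = (x : ℝ) ^ (2 / 3 : ℝ) * ((x : ℝ) ^ (1 / 3 : ℝ) * L ^ (U + 10 + D)) := by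
              rw [← mul_assoc, mul_comm ((x : ℝ) ^ (2 / 3 : ℝ)), h1]
          _ ≤ _ := mul_le_mul_of_nonneg_left hY (by positivity)
      rw [pow_add, ← mul_assoc] at h2
      calc (x : ℝ) / Y * L ^ (U + 10) * L ^ D = (x * L ^ (U + 10) * L ^ D) / Y := by ring
        _ ≤ (x : ℝ) ^ (2 / 3 : ℝ) := by rw [div_le_iff₀ hY0]; exact h2
    · rw [← pow_add]; exact hx0
  have hTC : T * L ^ C₁ ≤ (x : ℝ) ^ (2 / 3 : ℝ) := by
    refine le_trans ?_ hTD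
    exact mul_le_mul_of_nonneg_left (pow_le_pow_right₀ hL1 (by omega)) (by positivity)
  have hT3 : T ^ 3 ≤ (x : ℝ) ^ 2 / L ^ (U + 5) := by
    have h1 : T ≤ (x : ℝ) ^ (2 / 3 : ℝ) / L ^ D := by
      rw [le_div_iff₀ (by positivity)]; exact hTD
    have h2 := pow_le_pow_left₀ (by linarith : (0 : ℝ) ≤ T) h1 3
    refine h2.trans ?_
    rw [div_pow, ← Real.rpow_natCast ((x : ℝ) ^ (2 / 3 : ℝ)) 3, ← Real.rpow_mul hx00.le,
      show (2 / 3 : ℝ) * ((3 : ℕ) : ℝ) = ((2 : ℕ) : ℝ) by norm_num, Real.rpow_natCast, ← pow_mul]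
    exact div_le_div_of_nonneg_left (by positivity) (by positivity) (pow_le_pow_right₀ hL1 (by omega))
  obtain ⟨d1, d2⟩ := hDPL T hTC hT1
  have hI := sic_core hd (CF := CF) hP1 hT1 hnt d1 d2
    (fun τ hτ => hLOW τ hτ x (9 * x) le_rfl le_rfl)
  have hW' := hW T hY1 h10 hT0
  -- the sum of squares
  have hS : ∑ n ∈ Ioc x (9 * x), ‖c n - d‖ ^ 2 ≤ 72 * x * L ^ 2 := by
    have h1 : ∀ n ∈ Ioc x (9 * x), ‖c n - d‖ ^ 2 ≤ 9 * L ^ 2 := fun n hn => by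
      have := pow_le_pow_left₀ (norm_nonneg _) (hnorm n hn) 2
      refine this.trans (le_of_eq (by ring))
    refine (sum_le_sum h1).trans (le_of_eq ?_)
    rw [sum_const, Nat.card_Ioc, show 9 * x - x = 8 * x by omega, nsmul_eq_mul]
    push_cast
    ring
  -- the integral
  have hI2 : 4 * ((x : ℝ) ^ 2 / L ^ (U + 5)) + 2 * L ^ C₀ * (x / L ^ (C₀ + U + 5)) ^ 2 +
      1800 * CF ^ 2 * ((x : ℝ) ^ 2 / L ^ C₀ + T ^ 3) ≤ (6 + 3600 * CF ^ 2) * ((x : ℝ) ^ 2 / L ^ (U + 5)) := by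
    have h1 : 2 * L ^ C₀ * (x / L ^ (C₀ + U + 5)) ^ 2 ≤ 2 * ((x : ℝ) ^ 2 / L ^ (U + 5)) := by
      have h2 : L ^ C₀ * (x / L ^ (C₀ + U + 5)) ^ 2 = (x : ℝ) ^ 2 / L ^ (C₀ + 2 * (U + 5)) := by
        field_simp
        rw [← pow_mul, ← pow_add]
        congr 1
        ring
      rw [mul_assoc, h2]
      exact mul_le_mul_of_nonneg_left (div_le_div_of_nonneg_left (by positivity) (by positivity)
        (pow_le_pow_right₀ hL1 (by omega))) (by norm_num)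
    have h3 : (x : ℝ) ^ 2 / L ^ C₀ ≤ (x : ℝ) ^ 2 / L ^ (U + 5) :=
      div_le_div_of_nonneg_left (by positivity) (by positivity) (pow_le_pow_right₀ hL1 hC0)
    have h4 : 1800 * CF ^ 2 * ((x : ℝ) ^ 2 / L ^ C₀ + T ^ 3) ≤
        1800 * CF ^ 2 * ((x : ℝ) ^ 2 / L ^ (U + 5) + (x : ℝ) ^ 2 / L ^ (U + 5)) :=
      mul_le_mul_of_nonneg_left (add_le_add h3 hT3) (by positivity)
    linarith
  have hI3 := hI.trans hI2
  -- the tail
  have hTl : (x : ℝ) / T + (x : ℝ) ^ 2 * (1 + L) / T ^ 2 ≤ 3 * (Y : ℝ) ^ 2 / L ^ (U + 9) := by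
    have h1 : (x : ℝ) / T ≤ (Y : ℝ) ^ 2 / L ^ (U + 9) := by
      have h2 : (x : ℝ) / T ≤ Y / L ^ (U + 10) := by
        rw [div_le_div_iff₀ (by linarith) (by positivity)]
        have := mul_le_mul_of_nonneg_left hT2 hY0.le
        calc (x : ℝ) * L ^ (U + 10) = Y * ((x : ℝ) / Y * L ^ (U + 10)) := by field_simp
          _ ≤ _ := this
      refine h2.trans ?_
      have h3 : (Y : ℝ) / L ^ (U + 10) ≤ Y / L ^ (U + 9) :=
        div_le_div_of_nonneg_left hY0.le (by positivity) (pow_le_pow_right₀ hL1 (by omega))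
      refine h3.trans ?_
      exact div_le_div_of_nonneg_right (by nlinarith) (by positivity)
    have h4 : (x : ℝ) ^ 2 * (1 + L) / T ^ 2 ≤ 2 * ((Y : ℝ) ^ 2 / L ^ (U + 9)) := by
      have h5 : (x : ℝ) ^ 2 * L ^ (2 * (U + 10)) ≤ (Y : ℝ) ^ 2 * T ^ 2 := by
        have h6 : (x : ℝ) * L ^ (U + 10) ≤ Y * T := by
          have := mul_le_mul_of_nonneg_left hT2 hY0.le
          calc (x : ℝ) * L ^ (U + 10) = Y * ((x : ℝ) / Y * L ^ (U + 10)) := by field_simp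
            _ ≤ _ := this
        have h7 := pow_le_pow_left₀ (by positivity) h6 2
        calc (x : ℝ) ^ 2 * L ^ (2 * (U + 10)) = (x * L ^ (U + 10)) ^ 2 := by ring
          _ ≤ _ := h7
          _ = _ := by ring
      rw [← mul_div_assoc, div_le_div_iff₀ (by positivity) (by positivity)]
      have h8 : (1 + L) * L ^ (U + 9) ≤ 2 * L ^ (2 * (U + 10)) := by
        have h9 : (1 + L) ≤ 2 * L := by linarith
        calc (1 + L) * L ^ (U + 9) ≤ (2 * L) * L ^ (U + 9) := mul_le_mul_of_nonneg_right h9 (by positivity)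
          _ = 2 * L ^ (U + 10) := by ring
          _ ≤ 2 * L ^ (2 * (U + 10)) :=
            mul_le_mul_of_nonneg_left (pow_le_pow_right₀ hL1 (by omega)) (by norm_num)
      calc (x : ℝ) ^ 2 * (1 + L) * L ^ (U + 9) = (x : ℝ) ^ 2 * ((1 + L) * L ^ (U + 9)) := by ring
        _ ≤ (x : ℝ) ^ 2 * (2 * L ^ (2 * (U + 10))) := mul_le_mul_of_nonneg_left h8 (by positivity)
        _ = 2 * ((x : ℝ) ^ 2 * L ^ (2 * (U + 10))) := by ring
        _ ≤ 2 * ((Y : ℝ) ^ 2 * T ^ 2) := mul_le_mul_of_nonneg_left h5 (by norm_num)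
        _ = _ := by ring
    calc _ ≤ (Y : ℝ) ^ 2 / L ^ (U + 9) + 2 * ((Y : ℝ) ^ 2 / L ^ (U + 9)) := add_le_add h1 h4
      _ = _ := by ring
  have hTl0 : 0 ≤ (x : ℝ) / T + (x : ℝ) ^ 2 * (1 + L) / T ^ 2 := by positivity
  have hfin : CW * ((Y : ℝ) ^ 2 / x) * ((6 + 3600 * CF ^ 2) * ((x : ℝ) ^ 2 / L ^ (U + 5))) +
      CW * (3 * (Y : ℝ) ^ 2 / L ^ (U + 9)) * (72 * x * L ^ 2) ≤ x * (Y : ℝ) ^ 2 / L ^ U := by
    have e1 : CW * ((Y : ℝ) ^ 2 / x) * ((6 + 3600 * CF ^ 2) * ((x : ℝ) ^ 2 / L ^ (U + 5))) =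
        (CW * (6 + 3600 * CF ^ 2)) * (x * (Y : ℝ) ^ 2) / L ^ (U + 5) := by
      field_simp
    have e2 : CW * (3 * (Y : ℝ) ^ 2 / L ^ (U + 9)) * (72 * x * L ^ 2) =
        (216 * CW) * (x * (Y : ℝ) ^ 2) / L ^ (U + 7) := by
      rw [show U + 9 = (U + 7) + 2 by ring, pow_add]
      field_simp
      ring
    have e3 : (CW * (6 + 3600 * CF ^ 2)) * (x * (Y : ℝ) ^ 2) / L ^ (U + 5) ≤
        (CW * (6 + 3600 * CF ^ 2)) * (x * (Y : ℝ) ^ 2) / L ^ (U + 1) :=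
      div_le_div_of_nonneg_left (by positivity) (by positivity) (pow_le_pow_right₀ hL1 (by omega))
    have e4 : (216 * CW) * (x * (Y : ℝ) ^ 2) / L ^ (U + 7) ≤ (216 * CW) * (x * (Y : ℝ) ^ 2) / L ^ (U + 1) :=
      div_le_div_of_nonneg_left (by positivity) (by positivity) (pow_le_pow_right₀ hL1 (by omega))
    rw [e1, e2]
    refine (add_le_add e3 e4).trans ?_
    rw [← add_div, ← add_mul, div_le_div_iff₀ (by positivity) (by positivity)]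
    calc (CW * (6 + 3600 * CF ^ 2) + 216 * CW) * (x * (Y : ℝ) ^ 2) * L ^ U ≤
        L * (x * (Y : ℝ) ^ 2) * L ^ U :=
          mul_le_mul_of_nonneg_right (mul_le_mul_of_nonneg_right hLbig (by positivity)) (by positivity)
      _ = _ := by ring
  refine hW'.trans (le_trans (add_le_add ?_ ?_) hfin)
  · exact mul_le_mul_of_nonneg_left hI3 (by positivity)
  · refine mul_le_mul (mul_le_mul_of_nonneg_left hTl (by positivity)) hS
      (sum_nonneg fun _ _ => by positivity) (by positivity)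

lemma ev_log (M : ℝ) : ∃ X₀ : ℕ, ∀ x : ℕ, X₀ ≤ x → M ≤ Real.log x := by
  have h := (Real.tendsto_log_atTop.comp tendsto_natCast_atTop_atTop).eventually_ge_atTop M
  obtain ⟨X₀, h0⟩ := eventually_atTop.1 h
  exact ⟨X₀, fun x hx => h0 x hx⟩

lemma ev_pow (k : ℕ) {r : ℝ} (hr : 0 < r) : ∃ X₀ : ℕ, ∀ x : ℕ, X₀ ≤ x → Real.log x ^ k ≤ (x : ℝ) ^ r := by
  have h1 : ∀ᶠ y : ℝ in atTop, Real.log y ^ k ≤ y ^ r := by
    have h2 := (isLittleO_log_rpow_rpow_atTop (k : ℝ) hr).bound (show (0 : ℝ) < 1 by norm_num)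
    filter_upwards [h2, eventually_ge_atTop 1] with y hy hy1
    have h3 : 0 ≤ Real.log y := Real.log_nonneg hy1
    rw [one_mul, Real.norm_of_nonneg (by positivity), Real.norm_of_nonneg (by positivity),
      Real.rpow_natCast] at hy
    exact hy
  obtain ⟨X₀, h0⟩ := eventually_atTop.1 (tendsto_natCast_atTop_atTop.eventually h1)
  exact ⟨X₀, fun x hx => h0 x hx⟩

lemma cL_norm {q : ℕ} (χ : DirichletCharacter ℂ q) {x n : ℕ} (hx : 1 ≤ x) (hL : 10 ≤ Real.log x)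
    (hn : n ∈ Ioc x (9 * x)) : ‖cL χ n‖ ≤ 2 * Real.log x := by
  rw [mem_Ioc] at hn
  unfold cL
  rw [norm_mul, Complex.norm_real, Real.norm_of_nonneg ArithmeticFunction.vonMangoldt_nonneg]
  have h1 : ArithmeticFunction.vonMangoldt n ≤ 2 * Real.log x := by
    refine (ArithmeticFunction.vonMangoldt_le_log).trans ?_
    have h2 : Real.log n ≤ Real.log (9 * x : ℝ) :=
      Real.log_le_log (by exact_mod_cast (by omega : 0 < n)) (by exact_mod_cast hn.2)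
    rw [Real.log_mul (by norm_num) (by positivity)] at h2
    have h3 : Real.log 9 ≤ 9 - 1 := Real.log_le_sub_one_of_pos (by norm_num)
    linarith
  calc ‖χ (n : ZMod q)‖ * ArithmeticFunction.vonMangoldt n ≤ 1 * ArithmeticFunction.vonMangoldt n :=
        mul_le_mul_of_nonneg_right (DirichletCharacter.norm_le_one χ _) ArithmeticFunction.vonMangoldt_nonneg
    _ ≤ _ := by rw [one_mul]; exact h1

lemma cM_norm {q : ℕ} (χ : DirichletCharacter ℂ q) (n : ℕ) : ‖cM χ n‖ ≤ 1 := by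
  unfold cM
  rw [norm_mul, Complex.norm_intCast]
  have h1 : |((ArithmeticFunction.moebius n : ℤ) : ℝ)| ≤ 1 := by
    exact_mod_cast ArithmeticFunction.abs_moebius_le_one (n := n)
  calc ‖χ (n : ZMod q)‖ * _ ≤ 1 * 1 :=
        mul_le_mul (DirichletCharacter.norm_le_one χ _) h1 (abs_nonneg _) (by norm_num)
    _ = 1 := by norm_num

/-- **SIC** -/
theorem sic (hDPL : S_DPL) (hWIN : S_WIN) (hLOW : S_LOW) (hFD : S_FD) : S_SIC := by
  intro B U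
  obtain ⟨Cm, hCm⟩ := hDPL B (U + 5)
  obtain ⟨C₁, X₁, h1⟩ := hCm (max Cm (U + 5)) (le_max_left _ _)
  set C₀ := max Cm (U + 5) with hC₀
  obtain ⟨CW, hCW, hW⟩ := hWIN
  obtain ⟨CF, hCF, hF⟩ := hFD
  obtain ⟨X₂, h2⟩ := hLOW B C₀ (C₀ + U + 5)
  obtain ⟨X₃, h3⟩ := ev_log (100 + (CW * (6 + 3600 * CF ^ 2) + 216 * CW))
  obtain ⟨X₄, h4⟩ := ev_pow (C₀ + (C₁ + U + 5)) (show (0 : ℝ) < 2 / 3 by norm_num)
  refine ⟨U + 10 + (C₁ + U + 5), X₁ + X₂ + X₃ + X₄ + 1, fun x hx q hq hqB χ Y hY hYx => ?_⟩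
  have hL := h3 x (by omega)
  have hp1 : 0 ≤ CW * (6 + 3600 * CF ^ 2) + 216 * CW := by positivity
  have hL1 : 100 ≤ Real.log x := by linarith
  have hL2 : CW * (6 + 3600 * CF ^ 2) + 216 * CW ≤ Real.log x := by linarith
  have hnt : ∀ τ : ℝ, 1 ≤ |τ| → ‖∑ n ∈ Ioc x (9 * x), nt τ n‖ ≤ 15 * CF * (x / |τ| + |τ|) :=
    fun τ hτ => nt_blocks hF (by linarith) (by omega) hτ
  have hx0 := h4 x (by omega)
  constructor
  · refine sic_one (CW := CW) (CF := CF) (c := cL χ) (d := if χ = 1 then 1 else 0) (C₀ := C₀) (C₁ := C₁) hCW ?_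
      ?_ hnt hL1 hL2 ?_ ?_ ?_ (le_max_right _ _) hx0 hY hYx
    · split_ifs <;> simp
    · intro T t1 t2 t3
      exact hW (fun n => cL χ n - if χ = 1 then 1 else 0) x Y T t1 t2 t3
    · intro n hn
      refine (norm_sub_le _ _).trans ?_
      have e1 := cL_norm χ (by omega) (by linarith) hn
      have e2 : ‖(if χ = 1 then 1 else 0 : ℂ)‖ ≤ 1 := by split_ifs <;> simp
      linarith
    · intro T t1 t2
      exact h1 x (by omega) q hq hqB χ T t1 t2 x (9 * x) le_rfl le_rfl (cL χ) (Or.inl rfl)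
    · intro τ hτ x1 x2 t1 t2
      exact (h2 x (by omega) q hq hqB χ τ hτ x1 x2 t1 t2).1
  · have key := sic_one (CW := CW) (CF := CF) (c := cM χ) (d := 0) (x := x) (Y := Y) (U := U)
      (C₀ := C₀) (C₁ := C₁) hCW (by simp)
      (fun T t1 t2 t3 => hW (fun n => cM χ n - 0) x Y T t1 t2 t3) hnt hL1 hL2
      (fun n hn => by
        rw [sub_zero]
        have := cM_norm χ n
        linarith)
      (fun T t1 t2 => h1 x (by omega) q hq hqB χ T t1 t2 x (9 * x) le_rfl le_rfl (cM χ) (Or.inr rfl))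
      (fun τ hτ x1 x2 t1 t2 => by
        simp only [sub_zero]
        exact (h2 x (by omega) q hq hqB χ τ hτ x1 x2 t1 t2).2)
      (le_max_right _ _) hx0 hY hYx
    simpa only [sub_zero] using key

end Pool.Agent.Q198.CR
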