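import Pool.Agent.Q236.CR.Stm
import Pool.Agent.Q198.CR.Sic

set_option autoImplicit false

/-! Project CR (helper236), job SIA. -/

namespace Pool.Agent.Q198.CR

open Finset Filter MeasureTheory
open Pool.Agent.Q236.CR
open Pool.Agent.H469R2.NK (e norm_e e_add e_nat)

lemma e_per {q : ℕ} (hq : 1 ≤ q) (a n : ℕ) : e ((a : ℝ) * n / q) = e ((a : ℝ) * ((n % q : ℕ) : ℝ) / q) := by
  have h1 : ((n % q : ℕ) : ℝ) + q * ((n / q : ℕ) : ℝ) = n := by exact_mod_cast Nat.mod_add_div n q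
  have hq0 : (q : ℝ) ≠ 0 := by exact_mod_cast (by omega : q ≠ 0)
  have h2 : (a : ℝ) * n / q = (a : ℝ) * ((n % q : ℕ) : ℝ) / q + ((a * (n / q) : ℕ) : ℝ) := by
    rw [← h1, Nat.cast_mul]
    field_simp
  rw [h2, e_add, e_nat, mul_one]

/-- the coefficients of the additive character on the reduced classes -/
noncomputable def ww (q a : ℕ) (χ : DirichletCharacter ℂ q) : ℂ :=
  (1 / (Nat.totient q : ℂ)) *
    ∑ b ∈ (Finset.range q).filter (fun b => b.Coprime q), e ((a : ℝ) * b / q) * χ ((b : ZMod q)⁻¹)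

lemma card_cop (q : ℕ) : ((Finset.range q).filter (fun b => b.Coprime q)).card = Nat.totient q := by
  rw [Nat.totient_eq_card_coprime]
  congr 1
  ext b
  simp [Nat.coprime_comm]

lemma ww_norm {q : ℕ} (hq : 1 ≤ q) (a : ℕ) (χ : DirichletCharacter ℂ q) : ‖ww q a χ‖ ≤ 1 := by
  have hφ : (0 : ℝ) < Nat.totient q := by exact_mod_cast Nat.totient_pos.2 hq
  unfold ww
  rw [norm_mul, norm_div, norm_one, Complex.norm_natCast, one_div, inv_mul_le_iff₀ hφ, mul_one]
  refine (norm_sum_le _ _).trans ?_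
  calc ∑ b ∈ (Finset.range q).filter (fun b => b.Coprime q), ‖e ((a : ℝ) * b / q) * χ ((b : ZMod q)⁻¹)‖
      ≤ ∑ _b ∈ (Finset.range q).filter (fun b => b.Coprime q), (1 : ℝ) := by
        refine sum_le_sum fun b _ => ?_
        rw [norm_mul, norm_e, one_mul]
        exact DirichletCharacter.norm_le_one χ _
    _ = _ := by rw [sum_const, card_cop, nsmul_eq_mul, mul_one]

lemma ww_one {q : ℕ} (a : ℕ) : ww q a 1 = cc q a := by
  unfold ww cc
  congr 1
  refine sum_congr rfl fun b hb => ?_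
  rw [mem_filter] at hb
  have h1 : IsUnit ((b : ZMod q)⁻¹) := by
    rw [← ZMod.coe_unitOfCoprime b hb.2, ZMod.inv_coe_unit]
    exact Units.isUnit _
  rw [MulChar.one_apply h1, mul_one]

lemma ww_sum {q : ℕ} [NeZero q] (a n : ℕ) :
    ∑ χ : DirichletCharacter ℂ q, ww q a χ * χ (n : ZMod q) = if n.Coprime q then e ((a : ℝ) * n / q) else 0 := by
  have hq : 1 ≤ q := Nat.one_le_iff_ne_zero.2 (NeZero.ne q)
  have hφ : (Nat.totient q : ℂ) ≠ 0 := by exact_mod_cast (Nat.totient_pos.2 hq).ne'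
  have h1 : ∑ χ : DirichletCharacter ℂ q, ww q a χ * χ (n : ZMod q) =
      (1 / (Nat.totient q : ℂ)) * ∑ b ∈ (Finset.range q).filter (fun b => b.Coprime q), e ((a : ℝ) * b / q) *
        (if (b : ZMod q) = (n : ZMod q) then (Nat.totient q : ℂ) else 0) := by
    unfold ww
    simp_rw [mul_assoc, ← mul_sum, sum_mul]
    rw [sum_comm]
    congr 1
    refine sum_congr rfl fun b hb => ?_
    rw [mem_filter] at hb
    have hu : IsUnit (b : ZMod q) := (ZMod.isUnit_iff_coprime b q).2 hb.2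
    rw [← DirichletCharacter.sum_char_inv_mul_char_eq ℂ hu (n : ZMod q), mul_sum]
    exact sum_congr rfl fun χ _ => by ring
  rw [h1]
  split_ifs with hc
  · have h2 : n % q ∈ (Finset.range q).filter (fun b => b.Coprime q) := by
      rw [mem_filter, mem_range]
      refine ⟨Nat.mod_lt _ (by omega), ?_⟩
      rw [Nat.Coprime, ← Nat.gcd_rec, Nat.gcd_comm]
      exact hc
    rw [sum_eq_single (n % q)]
    · rw [if_pos (by simp), ← e_per hq]
      field_simp
    · intro b hb hne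
      rw [if_neg, mul_zero]
      intro h0
      rw [ZMod.natCast_eq_natCast_iff'] at h0
      rw [mem_filter, mem_range] at hb
      apply hne
      rw [← h0]
      exact (Nat.mod_eq_of_lt hb.1).symm
    · intro h0; exact absurd h2 h0
  · rw [sum_eq_zero, mul_zero]
    intro b hb
    rw [if_neg, mul_zero]
    intro h0
    rw [mem_filter] at hb
    have hu : IsUnit (b : ZMod q) := (ZMod.isUnit_iff_coprime b q).2 hb.2
    rw [h0] at hu
    exact hc ((ZMod.isUnit_iff_coprime n q).1 hu)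

lemma card_ch (q : ℕ) [NeZero q] : (Fintype.card (DirichletCharacter ℂ q) : ℝ) ≤ q := by
  have h1 := DirichletCharacter.card_eq_totient_of_hasEnoughRootsOfUnity ℂ q
  rw [Nat.card_eq_fintype_card] at h1
  rw [h1]
  exact_mod_cast Nat.totient_le q

/-- the terms not coprime to the modulus -/
lemma lam_nc {q N : ℕ} (hq : 1 ≤ q) (hN : 2 ≤ N) (W : Finset ℕ) (hW : ∀ n ∈ W, n ≤ N) :
    ∑ n ∈ W.filter (fun n => ¬ n.Coprime q), ArithmeticFunction.vonMangoldt n ≤ 2 * q * Real.log N ^ 2 := by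
  classical
  have hlog : 0 ≤ Real.log N := Real.log_nonneg (by exact_mod_cast (by omega : 1 ≤ N))
  rw [← sum_filter_ne_zero]
  set S := (W.filter (fun n => ¬ n.Coprime q)).filter (fun n => ArithmeticFunction.vonMangoldt n ≠ 0) with hS
  have h1 : ∀ n ∈ S, ArithmeticFunction.vonMangoldt n ≤ Real.log N := by
    intro n hn
    rw [hS, mem_filter, mem_filter] at hn
    refine ArithmeticFunction.vonMangoldt_le_log.trans ?_
    rcases Nat.eq_zero_or_pos n with h0 | h0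
    · rw [h0]; simpa using hlog
    · exact Real.log_le_log (by exact_mod_cast h0) (by exact_mod_cast hW n hn.1.1)
  have h2 : S ⊆ (q.primeFactors ×ˢ Icc 1 (Nat.log 2 N)).image (fun u : ℕ × ℕ => u.1 ^ u.2) := by
    intro n hn
    rw [hS, mem_filter, mem_filter] at hn
    obtain ⟨⟨hnW, hnc⟩, hne⟩ := hn
    rw [ArithmeticFunction.vonMangoldt_ne_zero_iff, isPrimePow_nat_iff] at hne
    obtain ⟨p, k, hp, hk, rfl⟩ := hne
    rw [mem_image]
    refine ⟨(p, k), ?_, rfl⟩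
    rw [mem_product, Nat.mem_primeFactors, mem_Icc]
    refine ⟨⟨hp, ?_, by omega⟩, hk, ?_⟩
    · by_contra h0
      exact hnc (Nat.Coprime.pow_left k ((Nat.Prime.coprime_iff_not_dvd hp).2 h0))
    · refine Nat.le_log_of_pow_le (by norm_num) ?_
      exact (Nat.pow_le_pow_left hp.two_le k).trans (hW _ hnW)
  have h3 : S.card ≤ q * Nat.log 2 N := by
    refine (card_le_card h2).trans (card_image_le.trans ?_)
    rw [card_product, Nat.card_Icc, Nat.add_sub_cancel]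
    refine Nat.mul_le_mul_right _ ?_
    have h4 : q.primeFactors ⊆ Icc 1 q := by
      intro p hp
      rw [Nat.mem_primeFactors] at hp
      rw [mem_Icc]
      exact ⟨hp.1.one_le, Nat.le_of_dvd (by omega) hp.2.1⟩
    simpa using card_le_card h4
  have h5 : (Nat.log 2 N : ℝ) ≤ 2 * Real.log N := by
    have h6 : (2 : ℝ) ^ Nat.log 2 N ≤ N := by exact_mod_cast Nat.pow_log_le_self 2 (by omega)
    have h7 := Real.log_le_log (by positivity) h6
    rw [Real.log_pow] at h7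
    have h8 := Real.log_two_gt_d9
    have h9 : (0 : ℝ) ≤ Nat.log 2 N := Nat.cast_nonneg _
    nlinarith
  calc ∑ n ∈ S, ArithmeticFunction.vonMangoldt n ≤ ∑ _n ∈ S, Real.log N := sum_le_sum h1
    _ = S.card * Real.log N := by rw [sum_const, nsmul_eq_mul]
    _ ≤ (q * Nat.log 2 N) * Real.log N := mul_le_mul_of_nonneg_right (by exact_mod_cast h3) hlog
    _ ≤ (q * (2 * Real.log N)) * Real.log N :=
        mul_le_mul_of_nonneg_right (mul_le_mul_of_nonneg_left h5 (by positivity)) hlog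
    _ = _ := by ring

/-- the window identity for `Λ` -/
lemma win_lam {q : ℕ} [NeZero q] (a m Y : ℕ) :
    ∑ n ∈ Ioc m (m + Y), (ArithmeticFunction.vonMangoldt n : ℂ) * e ((a : ℝ) * n / q) - cc q a * Y =
      ∑ χ : DirichletCharacter ℂ q, ww q a χ * ∑ n ∈ Ioc m (m + Y), (cL χ n - if χ = 1 then 1 else 0) +
      ∑ n ∈ (Ioc m (m + Y)).filter (fun n => ¬ n.Coprime q),
        (ArithmeticFunction.vonMangoldt n : ℂ) * e ((a : ℝ) * n / q) := by
  have h1 : ∑ χ : DirichletCharacter ℂ q, ww q a χ * ∑ n ∈ Ioc m (m + Y), (cL χ n - if χ = 1 then 1 else 0) =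
      ∑ n ∈ Ioc m (m + Y), (ArithmeticFunction.vonMangoldt n : ℂ) * ∑ χ : DirichletCharacter ℂ q,
        ww q a χ * χ (n : ZMod q) - cc q a * Y := by
    simp_rw [sum_sub_distrib, mul_sub, sum_const, Nat.card_Ioc, Nat.add_sub_cancel_left]
    rw [sum_sub_distrib]
    congr 1
    · simp_rw [mul_sum]
      rw [sum_comm]
      refine sum_congr rfl fun n _ => sum_congr rfl fun χ _ => ?_
      unfold cL
      ring
    · rw [sum_eq_single 1]
      · rw [if_pos rfl, ww_one, nsmul_eq_mul, mul_one]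
      · intro χ _ hχ
        rw [if_neg hχ]; simp
      · intro h0; exact absurd (mem_univ _) h0
  rw [h1]
  simp_rw [ww_sum]
  rw [← sum_filter_add_sum_filter_not (Ioc m (m + Y)) (fun n => n.Coprime q)
    (fun n => (ArithmeticFunction.vonMangoldt n : ℂ) * e ((a : ℝ) * n / q))]
  have h2 : ∑ n ∈ Ioc m (m + Y), (ArithmeticFunction.vonMangoldt n : ℂ) *
      (if n.Coprime q then e ((a : ℝ) * n / q) else 0) =
      ∑ n ∈ (Ioc m (m + Y)).filter (fun n => n.Coprime q),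
        (ArithmeticFunction.vonMangoldt n : ℂ) * e ((a : ℝ) * n / q) := by
    rw [sum_filter]
    refine sum_congr rfl fun n _ => ?_
    split_ifs <;> simp
  rw [h2]
  ring

/-- the Moebius function split by the common divisor with the modulus -/
lemma mu_split {q n : ℕ} (hq : 1 ≤ q) (hn : 1 ≤ n) :
    ((ArithmeticFunction.moebius n : ℤ) : ℂ) = ∑ g ∈ q.divisors, if g ∣ n ∧ (n / g).Coprime q then
      ((ArithmeticFunction.moebius g : ℤ) : ℂ) * ((ArithmeticFunction.moebius (n / g) : ℤ) : ℂ) else 0 := by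
  have huniq : ∀ g ∈ q.divisors, g ∣ n ∧ (n / g).Coprime q → g = Nat.gcd n q := by
    intro g hg ⟨h1, h2⟩
    rw [Nat.mem_divisors] at hg
    obtain ⟨c, hc⟩ := h1
    have hg0 : 0 < g := Nat.pos_of_dvd_of_pos hg.1 (by omega)
    rw [hc, Nat.mul_div_cancel_left _ hg0] at h2
    rw [hc, Nat.Coprime.gcd_mul_right_cancel g h2]
    exact (Nat.gcd_eq_left hg.1).symm
  have hg0 : 0 < Nat.gcd n q := Nat.gcd_pos_of_pos_left _ (by omega)
  have hgm : Nat.gcd n q ∈ q.divisors := Nat.mem_divisors.2 ⟨Nat.gcd_dvd_right _ _, by omega⟩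
  obtain ⟨c, hc⟩ := Nat.gcd_dvd_left n q
  have hcd : n / Nat.gcd n q = c := Nat.div_eq_of_eq_mul_right hg0 hc
  by_cases hco : (n / Nat.gcd n q).Coprime q
  · rw [sum_eq_single (Nat.gcd n q)]
    · rw [if_pos ⟨Nat.gcd_dvd_left _ _, hco⟩, hcd]
      rw [hcd] at hco
      have h3 : (Nat.gcd n q).Coprime c := (hco.coprime_dvd_right (Nat.gcd_dvd_right n q)).symm
      have h4 := ArithmeticFunction.isMultiplicative_moebius.map_mul_of_coprime h3
      rw [← hc] at h4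
      rw [h4]
      push_cast
      rfl
    · intro g hg hne
      rw [if_neg]
      intro h0
      exact hne (huniq g hg h0)
    · intro h0; exact absurd hgm h0
  · rw [sum_eq_zero]
    · rw [hcd] at hco
      obtain ⟨p, hp, hpc, hpq⟩ := Nat.Prime.not_coprime_iff_dvd.1 hco
      have hpn : p ∣ n := by rw [hc]; exact Dvd.dvd.mul_left hpc _
      have hpg : p ∣ Nat.gcd n q := Nat.dvd_gcd hpn hpq
      have hpp : p * p ∣ n := by
        conv_rhs => rw [hc]
        exact mul_dvd_mul hpg hpc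
      have h5 : ¬ Squarefree n := fun hs => hp.one_lt.ne' (Nat.isUnit_iff.1 (hs p hpp))
      rw [ArithmeticFunction.moebius_eq_zero_of_not_squarefree h5]
      simp
    · intro g hg
      rw [if_neg]
      intro h0
      apply hco
      rw [← huniq g hg h0]
      exact h0.2

/-- multiples of `g` in a window -/
lemma win_mult {g : ℕ} (hg : 1 ≤ g) (m M : ℕ) (P : ℕ → Prop) [DecidablePred P] (f : ℕ → ℕ → ℂ) :
    ∑ n ∈ Ioc m M, (if g ∣ n ∧ P (n / g) then f (n / g) n else 0) =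
      ∑ k ∈ Ioc (m / g) (M / g), if P k then f k (g * k) else 0 := by
  have h1 : ∑ n ∈ Ioc m M, (if g ∣ n ∧ P (n / g) then f (n / g) n else 0) =
      ∑ n ∈ (Ioc m M).filter (fun n => g ∣ n), (if P (n / g) then f (n / g) n else 0) := by
    rw [sum_filter]
    refine sum_congr rfl fun n _ => ?_
    by_cases h : g ∣ n <;> simp [h]
  rw [h1]
  symm
  refine sum_bij (fun k _ => g * k) ?_ ?_ ?_ ?_
  · intro k hk
    rw [mem_Ioc, Nat.div_lt_iff_lt_mul (by omega), Nat.le_div_iff_mul_le (by omega)] at hk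
    rw [mem_filter, mem_Ioc]
    exact ⟨⟨by linarith [hk.1, mul_comm g k], by linarith [hk.2, mul_comm g k]⟩, Dvd.intro _ rfl⟩
  · intro a _ b _ hab
    exact Nat.eq_of_mul_eq_mul_left (by omega) hab
  · intro n hn
    rw [mem_filter, mem_Ioc] at hn
    obtain ⟨hn1, c, rfl⟩ := hn
    refine ⟨c, ?_, rfl⟩
    rw [mem_Ioc, Nat.div_lt_iff_lt_mul (by omega), Nat.le_div_iff_mul_le (by omega)]
    exact ⟨by linarith [hn1.1, mul_comm g c], by linarith [hn1.2, mul_comm g c]⟩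
  · intro k _
    rw [Nat.mul_div_cancel_left _ (by omega : 0 < g)]

/-- the window identity for `μ` -/
lemma win_mu {q : ℕ} [NeZero q] (a m Y : ℕ) :
    ∑ n ∈ Ioc m (m + Y), ((ArithmeticFunction.moebius n : ℤ) : ℂ) * e ((a : ℝ) * n / q) =
      ∑ g ∈ q.divisors, ∑ χ : DirichletCharacter ℂ q,
        (((ArithmeticFunction.moebius g : ℤ) : ℂ) * ww q (a * g) χ) *
          ∑ k ∈ Ioc (m / g) ((m + Y) / g), cM χ k := by
  have hq : 1 ≤ q := Nat.one_le_iff_ne_zero.2 (NeZero.ne q)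
  have h1 : ∀ n ∈ Ioc m (m + Y), ((ArithmeticFunction.moebius n : ℤ) : ℂ) * e ((a : ℝ) * n / q) =
      ∑ g ∈ q.divisors, if g ∣ n ∧ (n / g).Coprime q then
        ((ArithmeticFunction.moebius g : ℤ) : ℂ) * ((ArithmeticFunction.moebius (n / g) : ℤ) : ℂ) *
          e ((a : ℝ) * n / q) else 0 := by
    intro n hn
    rw [mem_Ioc] at hn
    rw [mu_split hq (by omega : 1 ≤ n), sum_mul]
    refine sum_congr rfl fun g _ => ?_
    rw [ite_mul, zero_mul]
  rw [sum_congr rfl h1, sum_comm]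
  refine sum_congr rfl fun g hg => ?_
  have hg1 : 1 ≤ g := Nat.pos_of_mem_divisors hg
  rw [win_mult hg1 m (m + Y) (fun k => k.Coprime q)
    (fun k n => ((ArithmeticFunction.moebius g : ℤ) : ℂ) * ((ArithmeticFunction.moebius k : ℤ) : ℂ) *
          e ((a : ℝ) * n / q))]
  have h2 : ∀ k ∈ Ioc (m / g) ((m + Y) / g), (if k.Coprime q then
      ((ArithmeticFunction.moebius g : ℤ) : ℂ) * ((ArithmeticFunction.moebius k : ℤ) : ℂ) *
          e ((a : ℝ) * ((g * k : ℕ) : ℝ) / q) else 0) =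
      ∑ χ : DirichletCharacter ℂ q, ((ArithmeticFunction.moebius g : ℤ) : ℂ) * ww q (a * g) χ * cM χ k := by
    intro k _
    have h3 : (a : ℝ) * ((g * k : ℕ) : ℝ) / q = ((a * g : ℕ) : ℝ) * k / q := by push_cast; ring
    have h4 := ww_sum (q := q) (a * g) k
    rw [h3]
    have h5 : (if k.Coprime q then
      ((ArithmeticFunction.moebius g : ℤ) : ℂ) * ((ArithmeticFunction.moebius k : ℤ) : ℂ) *
          e (((a * g : ℕ) : ℝ) * k / q) else 0) = ((ArithmeticFunction.moebius g : ℤ) : ℂ) *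
          ((ArithmeticFunction.moebius k : ℤ) : ℂ) * (if k.Coprime q then e (((a * g : ℕ) : ℝ) * k / q) else 0) := by
      split_ifs <;> simp
    rw [h5, ← h4, mul_sum]
    refine sum_congr rfl fun χ _ => ?_
    unfold cM
    ring
  rw [sum_congr rfl h2, sum_comm]
  exact sum_congr rfl fun χ _ => by rw [mul_sum]

/-- Cauchy-Schwarz for sums with coefficients at most one -/
lemma cs_sum {ι : Type*} (s : Finset ι) (w S : ι → ℂ) (hw : ∀ i ∈ s, ‖w i‖ ≤ 1) :
    ‖∑ i ∈ s, w i * S i‖ ^ 2 ≤ s.card * ∑ i ∈ s, ‖S i‖ ^ 2 := by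
  have h1 : ‖∑ i ∈ s, w i * S i‖ ≤ ∑ i ∈ s, ‖S i‖ := by
    refine (norm_sum_le _ _).trans (sum_le_sum fun i hi => ?_)
    rw [norm_mul]
    exact mul_le_of_le_one_left (norm_nonneg _) (hw i hi)
  exact (pow_le_pow_left₀ (norm_nonneg _) h1 2).trans sq_sum_le_card_mul_sum_sq

/-- the fibres of `m ↦ m / g` -/
lemma fib_sum {g : ℕ} (hg : 1 ≤ g) (x : ℕ) (f : ℕ → ℝ) (hf : ∀ k, 0 ≤ f k) :
    ∑ m ∈ Ioc x (2 * x), f (m / g) ≤ g * (f (x / g) + ∑ k ∈ Ioc (x / g) (2 * (x / g)), f k + f (2 * (x / g) + 1)) := by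
  classical
  have h1 : ∑ m ∈ Ioc x (2 * x), f (m / g) ≤ ∑ k ∈ Icc (x / g) (2 * (x / g) + 1), (g : ℝ) * f k := by
    have hmaps : ∀ m ∈ Ioc x (2 * x), m / g ∈ Icc (x / g) (2 * (x / g) + 1) := by
      intro m hm
      rw [mem_Ioc] at hm
      rw [mem_Icc]
      refine ⟨Nat.div_le_div_right hm.1.le, ?_⟩
      rw [← Nat.lt_succ_iff, Nat.div_lt_iff_lt_mul (by omega)]
      have h2 := Nat.lt_div_mul_add (a := x) (show 0 < g by omega)
      calc m ≤ 2 * x := hm.2
        _ < 2 * (x / g * g + g) := by omega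
        _ = _ := by rw [Nat.succ_eq_add_one]; ring
    rw [← sum_fiberwise_of_maps_to hmaps]
    refine sum_le_sum fun k _ => ?_
    have h3 : ∀ m ∈ (Ioc x (2 * x)).filter (fun m => m / g = k), f (m / g) = f k := by
      intro m hm
      rw [mem_filter] at hm
      rw [hm.2]
    rw [sum_congr rfl h3, sum_const, nsmul_eq_mul]
    refine mul_le_mul_of_nonneg_right ?_ (hf k)
    have h4 : (Ioc x (2 * x)).filter (fun m => m / g = k) ⊆ Ico (g * k) (g * k + g) := by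
      intro m hm
      rw [mem_filter] at hm
      rw [mem_Ico, ← hm.2]
      have h5 := Nat.div_add_mod m g
      have h6 := Nat.mod_lt m (show 0 < g by omega)
      constructor <;> omega
    have h7 := card_le_card h4
    rw [Nat.card_Ico, Nat.add_sub_cancel_left] at h7
    exact_mod_cast h7
  refine h1.trans ?_
  rw [← mul_sum]
  refine mul_le_mul_of_nonneg_left ?_ (Nat.cast_nonneg _)
  have h8 : Icc (x / g) (2 * (x / g) + 1) ⊆ insert (x / g) (insert (2 * (x / g) + 1) (Ioc (x / g) (2 * (x / g)))) := by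
    intro k hk
    rw [mem_Icc] at hk
    rw [mem_insert, mem_insert, mem_Ioc]
    omega
  refine (sum_le_sum_of_subset_of_nonneg h8 fun k _ _ => hf k).trans ?_
  have h9 : ∀ (b : ℕ) (s : Finset ℕ), ∑ k ∈ insert b s, f k ≤ f b + ∑ k ∈ s, f k := by
    intro b s
    by_cases hb : b ∈ s
    · rw [insert_eq_of_mem hb]; linarith [hf b]
    · rw [sum_insert hb]
  have h10 := h9 (x / g) (insert (2 * (x / g) + 1) (Ioc (x / g) (2 * (x / g))))
  have h11 := h9 (2 * (x / g) + 1) (Ioc (x / g) (2 * (x / g)))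
  linarith

/-- the mean square of the windows of multiples -/
lemma win_g {g : ℕ} (hg : 1 ≤ g) {x Y : ℕ} {c : ℕ → ℂ} (hc : ∀ n, ‖c n‖ ≤ 1) {E : ℝ}
    (hE : ∑ m ∈ Ioc (x / g) (2 * (x / g)), ‖∑ n ∈ Ioc m (m + Y / g), c n‖ ^ 2 ≤ E) :
    ∑ m ∈ Ioc x (2 * x), ‖∑ k ∈ Ioc (m / g) ((m + Y) / g), c k‖ ^ 2 ≤
      2 * g * (E + 2 * (Y : ℝ) ^ 2) + 2 * x := by
  have htriv : ∀ m : ℕ, ‖∑ n ∈ Ioc m (m + Y / g), c n‖ ^ 2 ≤ (Y : ℝ) ^ 2 := by
    intro m
    refine pow_le_pow_left₀ (norm_nonneg _) ?_ 2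
    refine (norm_sum_le _ _).trans ((sum_le_sum fun n _ => hc n).trans ?_)
    rw [sum_const, Nat.card_Ioc, Nat.add_sub_cancel_left, nsmul_eq_mul, mul_one]
    exact_mod_cast Nat.div_le_self _ _
  have h1 : ∀ m ∈ Ioc x (2 * x), ‖∑ k ∈ Ioc (m / g) ((m + Y) / g), c k‖ ^ 2 ≤
      2 * ‖∑ n ∈ Ioc (m / g) (m / g + Y / g), c n‖ ^ 2 + 2 := by
    intro m _
    have h2 : ‖∑ k ∈ Ioc (m / g) ((m + Y) / g), c k‖ ≤ ‖∑ n ∈ Ioc (m / g) (m / g + Y / g), c n‖ + 1 := by
      have h3 : (m + Y) / g = m / g + Y / g ∨ (m + Y) / g = m / g + Y / g + 1 := by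
        rw [Nat.add_div (by omega)]
        split_ifs
        · right; rfl
        · left; rfl
      rcases h3 with h3 | h3
      · rw [h3]; linarith
      · rw [h3, ← sum_Ioc_consecutive _ (Nat.le_add_right (m / g) (Y / g)) (Nat.le_succ _)]
        refine (norm_add_le _ _).trans (add_le_add le_rfl ?_)
        rw [Nat.Ioc_succ_singleton, sum_singleton]
        exact hc _
    have h4 := pow_le_pow_left₀ (norm_nonneg _) h2 2
    refine h4.trans ?_
    nlinarith [sq_nonneg (‖∑ n ∈ Ioc (m / g) (m / g + Y / g), c n‖ - 1)]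
  refine (sum_le_sum h1).trans ?_
  rw [sum_add_distrib, ← mul_sum, sum_const, Nat.card_Ioc, show 2 * x - x = x by omega, nsmul_eq_mul]
  have h5 := fib_sum hg x (fun m => ‖∑ n ∈ Ioc m (m + Y / g), c n‖ ^ 2) (fun k => by positivity)
  have h6 := htriv (x / g)
  have h7 := htriv (2 * (x / g) + 1)
  have h8 : (g : ℝ) * (‖∑ n ∈ Ioc (x / g) (x / g + Y / g), c n‖ ^ 2 +
      ∑ k ∈ Ioc (x / g) (2 * (x / g)), ‖∑ n ∈ Ioc k (k + Y / g), c n‖ ^ 2 +
      ‖∑ n ∈ Ioc (2 * (x / g) + 1) (2 * (x / g) + 1 + Y / g), c n‖ ^ 2) ≤ g * (E + 2 * (Y : ℝ) ^ 2) :=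
    mul_le_mul_of_nonneg_left (by linarith) (Nat.cast_nonneg _)
  have h9 := h5.trans h8
  linarith

lemma fl_ge {a g : ℕ} (hg : 1 ≤ g) (h : g ≤ a) : (a : ℝ) / (2 * g) ≤ ((a / g : ℕ) : ℝ) := by
  have h1 : 1 ≤ a / g := Nat.div_pos h (by omega)
  have h2 := Nat.lt_div_mul_add (a := a) (show 0 < g by omega)
  have h3 : a ≤ (a / g) * (2 * g) := by
    calc a ≤ a / g * g + g := h2.le
      _ ≤ a / g * g + a / g * g := Nat.add_le_add_left (by nlinarith) _
      _ = _ := by ring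
  have hgR : (0 : ℝ) < 2 * g := by
    have : (1 : ℝ) ≤ g := by exact_mod_cast hg
    linarith
  rw [div_le_iff₀ hgR]
  exact_mod_cast h3

/-- **SIA** -/
theorem sia (hSIC : S_SIC) : S_SIA := by
  classical
  intro B U
  obtain ⟨C₀, X₀, hS⟩ := hSIC (B + 1) (U + 4 * B + 5)
  obtain ⟨X₁, h1⟩ := ev_log (2 ^ (U + 4 * B + 8))
  obtain ⟨X₂, h2⟩ := ev_pow (5 * B + U + 5) (show (0 : ℝ) < 1 / 3 by norm_num)
  refine ⟨C₀ + B + 1, X₀ ^ 2 + X₀ + X₁ + X₂ + 64, fun x hx q hq hqB a Y hY hYx => ?_⟩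
  have : NeZero q := ⟨by omega⟩
  have hL0 := h1 x (by omega)
  have hH := h2 x (by omega)
  set L := Real.log x with hL
  have h256 : (256 : ℝ) ≤ L := by
    refine le_trans ?_ hL0
    calc (256 : ℝ) = 2 ^ 8 := by norm_num
      _ ≤ _ := pow_le_pow_right₀ (by norm_num) (by omega)
  have hL1 : (1 : ℝ) ≤ L := by linarith
  have hx64 : (64 : ℝ) ≤ x := by exact_mod_cast (by omega : 64 ≤ x)
  have hx0 : (0 : ℝ) < x := by linarith
  have hH1 : (1 : ℝ) ≤ (x : ℝ) ^ (1 / 3 : ℝ) := Real.one_le_rpow (by linarith) (by norm_num)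
  have hq0 : (1 : ℝ) ≤ q := by exact_mod_cast hq
  have hYH : (x : ℝ) ^ (1 / 3 : ℝ) ≤ Y := by
    refine le_trans ?_ hY
    exact le_mul_of_one_le_right (by positivity) (one_le_pow₀ hL1)
  have hY1 : (1 : ℝ) ≤ Y := hH1.trans hYH
  have hYsq : L ^ (5 * B + U + 5) ≤ (Y : ℝ) ^ 2 := (hH.trans hYH).trans (by nlinarith)
  have hxx : L ^ (5 * B + U + 5) ≤ (x : ℝ) := by
    refine hH.trans ((Real.rpow_le_rpow_of_exponent_le (by linarith) (show (1 / 3 : ℝ) ≤ 1 by norm_num)).trans ?_)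
    rw [Real.rpow_one]
  constructor
  · -- von Mangoldt
    have hch : ∀ χ : DirichletCharacter ℂ q, ∑ m ∈ Ioc x (2 * x),
        ‖∑ n ∈ Ioc m (m + Y), (cL χ n - (if χ = 1 then 1 else 0))‖ ^ 2 ≤
        x * (Y : ℝ) ^ 2 / L ^ (U + 4 * B + 5) := by
      intro χ
      refine (hS x (by omega) q inferInstance (hqB.trans (pow_le_pow_right₀ hL1 (by omega))) χ Y ?_ hYx).1
      refine le_trans (mul_le_mul_of_nonneg_left (pow_le_pow_right₀ hL1 (by omega)) (by positivity)) hY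
    have hR : ∀ m ∈ Ioc x (2 * x), ‖∑ n ∈ (Ioc m (m + Y)).filter (fun n => ¬ n.Coprime q),
        (ArithmeticFunction.vonMangoldt n : ℂ) * e ((a : ℝ) * n / q)‖ ≤ 8 * q * L ^ 2 := by
      intro m hm
      rw [mem_Ioc] at hm
      refine (norm_sum_le _ _).trans ?_
      have e1 : ∀ n ∈ (Ioc m (m + Y)).filter (fun n => ¬ n.Coprime q),
          ‖(ArithmeticFunction.vonMangoldt n : ℂ) * e ((a : ℝ) * n / q)‖ = ArithmeticFunction.vonMangoldt n := by
        intro n _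
        rw [norm_mul, norm_e, mul_one, Complex.norm_real,
          Real.norm_of_nonneg ArithmeticFunction.vonMangoldt_nonneg]
      rw [sum_congr rfl e1]
      have e2 := lam_nc (q := q) (N := 3 * x) hq (by omega) (Ioc m (m + Y))
        (fun n hn => by rw [mem_Ioc] at hn; omega)
      refine e2.trans ?_
      have e3 : Real.log ((3 * x : ℕ) : ℝ) ≤ 2 * L := by
        push_cast
        rw [Real.log_mul (by norm_num) hx0.ne']
        have : Real.log 3 ≤ 3 - 1 := Real.log_le_sub_one_of_pos (by norm_num)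
        linarith
      have e4 : 0 ≤ Real.log ((3 * x : ℕ) : ℝ) := Real.log_natCast_nonneg _
      calc 2 * q * Real.log ((3 * x : ℕ) : ℝ) ^ 2 ≤ 2 * q * (2 * L) ^ 2 :=
            mul_le_mul_of_nonneg_left (pow_le_pow_left₀ e4 e3 2) (by positivity)
        _ = _ := by ring
    have hpt : ∀ m ∈ Ioc x (2 * x), ‖∑ n ∈ Ioc m (m + Y),
        (ArithmeticFunction.vonMangoldt n : ℂ) * e ((a : ℝ) * n / q) - cc q a * Y‖ ^ 2 ≤
        2 * q * ∑ χ : DirichletCharacter ℂ q, ‖∑ n ∈ Ioc m (m + Y), (cL χ n - (if χ = 1 then 1 else 0))‖ ^ 2 +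
          128 * q ^ 2 * L ^ 4 := by
      intro m hm
      rw [win_lam]
      have f1 := cs_sum (univ : Finset (DirichletCharacter ℂ q)) (fun χ => ww q a χ)
        (fun χ => ∑ n ∈ Ioc m (m + Y), (cL χ n - (if χ = 1 then 1 else 0))) (fun χ _ => ww_norm hq a χ)
      rw [card_univ] at f1
      have f2 := mul_le_mul_of_nonneg_right (card_ch q)
        (show 0 ≤ ∑ χ : DirichletCharacter ℂ q, ‖∑ n ∈ Ioc m (m + Y), (cL χ n - (if χ = 1 then 1 else 0))‖ ^ 2 from
          sum_nonneg fun _ _ => by positivity)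
      have f3 := pow_le_pow_left₀ (norm_nonneg _) (hR m hm) 2
      have f4 := nsq_sub (∑ χ : DirichletCharacter ℂ q, ww q a χ * ∑ n ∈ Ioc m (m + Y), (cL χ n - if χ = 1 then 1 else 0))
        (-∑ n ∈ (Ioc m (m + Y)).filter (fun n => ¬ n.Coprime q),
        (ArithmeticFunction.vonMangoldt n : ℂ) * e ((a : ℝ) * n / q))
      rw [sub_neg_eq_add, norm_neg] at f4
      have f5 : (8 * q * L ^ 2) ^ 2 = 64 * (q : ℝ) ^ 2 * L ^ 4 := by ring
      rw [f5] at f3
      have f6 := f1.trans f2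
      linarith
    refine (sum_le_sum hpt).trans ?_
    rw [sum_add_distrib, ← mul_sum, sum_comm, sum_const, Nat.card_Ioc, show 2 * x - x = x by omega, nsmul_eq_mul]
    have g1 : ∑ χ : DirichletCharacter ℂ q, ∑ m ∈ Ioc x (2 * x),
        ‖∑ n ∈ Ioc m (m + Y), (cL χ n - (if χ = 1 then 1 else 0))‖ ^ 2 ≤
        q * (x * (Y : ℝ) ^ 2 / L ^ (U + 4 * B + 5)) := by
      refine (sum_le_sum fun χ _ => hch χ).trans ?_
      rw [sum_const, card_univ, nsmul_eq_mul]
      exact mul_le_mul_of_nonneg_right (card_ch q) (by positivity)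
    have hq2 : (q : ℝ) ^ 2 ≤ L ^ (2 * B) := by
      have := pow_le_pow_left₀ (by positivity) hqB 2
      rwa [← pow_mul, mul_comm B 2] at this
    have g2 : 2 * (q : ℝ) * (q * (x * (Y : ℝ) ^ 2 / L ^ (U + 4 * B + 5))) ≤ x * (Y : ℝ) ^ 2 / L ^ U * (1 / 2) := by
      have k1 : 2 * (q : ℝ) * (q * (x * (Y : ℝ) ^ 2 / L ^ (U + 4 * B + 5))) =
          (2 * (q : ℝ) ^ 2) * (x * (Y : ℝ) ^ 2) / L ^ (U + 4 * B + 5) := by ring
      rw [k1, mul_one_div, div_div, div_le_div_iff₀ (by positivity) (by positivity)]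
      have k2 : 2 * (q : ℝ) ^ 2 * (L ^ U * 2) ≤ L ^ (U + 4 * B + 5) := by
        calc 2 * (q : ℝ) ^ 2 * (L ^ U * 2) = 4 * ((q : ℝ) ^ 2 * L ^ U) := by ring
          _ ≤ L * (L ^ (2 * B) * L ^ U) := mul_le_mul (by linarith)
              (mul_le_mul_of_nonneg_right hq2 (by positivity)) (by positivity) (by positivity)
          _ = L ^ (2 * B + U + 1) := by ring
          _ ≤ _ := pow_le_pow_right₀ hL1 (by omega)
      calc 2 * (q : ℝ) ^ 2 * (x * (Y : ℝ) ^ 2) * (L ^ U * 2) = (x * (Y : ℝ) ^ 2) * (2 * (q : ℝ) ^ 2 * (L ^ U * 2)) := by ring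
        _ ≤ _ := mul_le_mul_of_nonneg_left k2 (by positivity)
    have g3 : (x : ℝ) * (128 * q ^ 2 * L ^ 4) ≤ x * (Y : ℝ) ^ 2 / L ^ U * (1 / 2) := by
      rw [mul_one_div, div_div, le_div_iff₀ (by positivity)]
      have k2 : 128 * (q : ℝ) ^ 2 * L ^ 4 * (L ^ U * 2) ≤ (Y : ℝ) ^ 2 := by
        calc 128 * (q : ℝ) ^ 2 * L ^ 4 * (L ^ U * 2) = 256 * ((q : ℝ) ^ 2 * (L ^ 4 * L ^ U)) := by ring
          _ ≤ L * (L ^ (2 * B) * (L ^ 4 * L ^ U)) := mul_le_mul h256
              (mul_le_mul_of_nonneg_right hq2 (by positivity)) (by positivity) (by positivity)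
          _ = L ^ (2 * B + U + 5) := by ring
          _ ≤ L ^ (5 * B + U + 5) := pow_le_pow_right₀ hL1 (by omega)
          _ ≤ _ := hYsq
      calc (x : ℝ) * (128 * q ^ 2 * L ^ 4) * (L ^ U * 2) = x * (128 * (q : ℝ) ^ 2 * L ^ 4 * (L ^ U * 2)) := by ring
        _ ≤ _ := mul_le_mul_of_nonneg_left k2 (by positivity)
    have g4 := mul_le_mul_of_nonneg_left g1 (show 0 ≤ 2 * (q : ℝ) by positivity)
    linarith
  · -- Moebius
    have hgq : ∀ g ∈ q.divisors, 1 ≤ g ∧ g ≤ q := fun g hg =>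
      ⟨Nat.pos_of_mem_divisors hg, Nat.divisor_le hg⟩
    set E : ℝ := 2 ^ (U + 4 * B + 5) * (x * (Y : ℝ) ^ 2) / L ^ (U + 4 * B + 5) with hE
    have hch : ∀ g ∈ q.divisors, ∀ χ : DirichletCharacter ℂ q,
        ∑ m ∈ Ioc x (2 * x), ‖∑ k ∈ Ioc (m / g) ((m + Y) / g), cM χ k‖ ^ 2 ≤
          2 * E + 4 * q * (Y : ℝ) ^ 2 + 2 * x := by
      intro g hg χ
      obtain ⟨hg1, hgq1⟩ := hgq g hg
      have hg1R : (1 : ℝ) ≤ g := by exact_mod_cast hg1
      have hgqR : (g : ℝ) ≤ q := by exact_mod_cast hgq1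
      have hgB : (g : ℝ) ≤ L ^ B := hgqR.trans hqB
      have hgH : (g : ℝ) ≤ (x : ℝ) ^ (1 / 3 : ℝ) :=
        (hgB.trans (pow_le_pow_right₀ hL1 (by omega))).trans hH
      have hgY : g ≤ Y := by exact_mod_cast hgH.trans hYH
      have hgx : g ≤ x := hgY.trans hYx
      have hx' := fl_ge hg1 hgx
      have hY' := fl_ge hg1 hgY
      -- the size of x / g
      have hsq : (x : ℝ) ^ (1 / 2 : ℝ) ≤ ((x / g : ℕ) : ℝ) := by
        refine le_trans ?_ hx'
        rw [le_div_iff₀ (by positivity)]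
        have k1 : (2 : ℝ) ≤ (x : ℝ) ^ (1 / 6 : ℝ) := by
          calc (2 : ℝ) = (64 : ℝ) ^ (1 / 6 : ℝ) := by
                rw [show (64 : ℝ) = 2 ^ (6 : ℝ) by norm_num, ← Real.rpow_mul (by norm_num)]
                norm_num
            _ ≤ _ := Real.rpow_le_rpow (by norm_num) hx64 (by norm_num)
        calc (x : ℝ) ^ (1 / 2 : ℝ) * (2 * g) ≤ (x : ℝ) ^ (1 / 2 : ℝ) * ((x : ℝ) ^ (1 / 6 : ℝ) * (x : ℝ) ^ (1 / 3 : ℝ)) := by
              refine mul_le_mul_of_nonneg_left ?_ (by positivity)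
              exact mul_le_mul k1 hgH (by positivity) (by positivity)
          _ = x := by
              rw [← Real.rpow_add hx0, ← Real.rpow_add hx0]
              norm_num
      have hlog : L / 2 ≤ Real.log ((x / g : ℕ) : ℝ) := by
        have k1 := Real.log_le_log (by positivity) hsq
        rw [Real.log_rpow hx0] at k1
        linarith
      have hx'0 : 0 < x / g := Nat.div_pos hgx (by omega)
      have hlog' : Real.log ((x / g : ℕ) : ℝ) ≤ L :=
        Real.log_le_log (by exact_mod_cast hx'0) (by exact_mod_cast Nat.div_le_self _ _)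
      have hX0 : X₀ ≤ x / g := by
        have k1 : (X₀ : ℝ) ≤ (x : ℝ) ^ (1 / 2 : ℝ) := by
          rw [← Real.sqrt_eq_rpow]
          refine Real.le_sqrt_of_sq_le ?_
          exact_mod_cast (by omega : X₀ ^ 2 ≤ x)
        exact_mod_cast k1.trans hsq
      have hLhalf : 0 < L / 2 := by linarith
      have hqB' : (q : ℝ) ≤ Real.log ((x / g : ℕ) : ℝ) ^ (B + 1) := by
        refine hqB.trans (le_trans ?_ (pow_le_pow_left₀ hLhalf.le hlog (B + 1)))
        rw [div_pow, le_div_iff₀ (by positivity), pow_succ L B]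
        refine mul_le_mul_of_nonneg_left (le_trans ?_ hL0) (by positivity)
        exact pow_le_pow_right₀ (by norm_num) (by omega)
      have hYc : (((x / g : ℕ) : ℝ)) ^ (1 / 3 : ℝ) * Real.log ((x / g : ℕ) : ℝ) ^ C₀ ≤ ((Y / g : ℕ) : ℝ) := by
        refine le_trans ?_ hY'
        rw [le_div_iff₀ (by positivity)]
        refine le_trans ?_ hY
        have k1 : (((x / g : ℕ) : ℝ)) ^ (1 / 3 : ℝ) ≤ (x : ℝ) ^ (1 / 3 : ℝ) :=
          Real.rpow_le_rpow (by positivity) (by exact_mod_cast Nat.div_le_self _ _) (by norm_num)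
        have k2 : Real.log ((x / g : ℕ) : ℝ) ^ C₀ ≤ L ^ C₀ :=
          pow_le_pow_left₀ (by linarith) hlog' _
        have k3 : 2 * (g : ℝ) ≤ L ^ (B + 1) := by
          rw [pow_succ, mul_comm]
          exact mul_le_mul hgB (by linarith) (by norm_num) (by positivity)
        calc (((x / g : ℕ) : ℝ)) ^ (1 / 3 : ℝ) * Real.log ((x / g : ℕ) : ℝ) ^ C₀ * (2 * g) ≤
              (x : ℝ) ^ (1 / 3 : ℝ) * L ^ C₀ * L ^ (B + 1) :=
                mul_le_mul (mul_le_mul k1 k2 (pow_nonneg (by linarith) _) (by positivity)) k3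
                  (by positivity) (by positivity)
          _ = _ := by ring
      have hsic := (hS (x / g) hX0 q inferInstance hqB' χ (Y / g) hYc (Nat.div_le_div_right hYx)).2
      have hw := win_g (x := x) (Y := Y) hg1 (cM_norm χ) hsic
      refine hw.trans ?_
      have hEg : (g : ℝ) * (((x / g : ℕ) : ℝ) * ((Y / g : ℕ) : ℝ) ^ 2 /
          Real.log ((x / g : ℕ) : ℝ) ^ (U + 4 * B + 5)) ≤ E := by
        have k1 : (g : ℝ) * ((x / g : ℕ) : ℝ) ≤ x := by exact_mod_cast Nat.mul_div_le x g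
        have k2 : ((Y / g : ℕ) : ℝ) ^ 2 ≤ (Y : ℝ) ^ 2 :=
          pow_le_pow_left₀ (by positivity) (by exact_mod_cast Nat.div_le_self _ _) 2
        have k3 : (L / 2) ^ (U + 4 * B + 5) ≤ Real.log ((x / g : ℕ) : ℝ) ^ (U + 4 * B + 5) :=
          pow_le_pow_left₀ hLhalf.le hlog _
        calc (g : ℝ) * (((x / g : ℕ) : ℝ) * ((Y / g : ℕ) : ℝ) ^ 2 /
              Real.log ((x / g : ℕ) : ℝ) ^ (U + 4 * B + 5)) =
              ((g : ℝ) * ((x / g : ℕ) : ℝ)) * ((Y / g : ℕ) : ℝ) ^ 2 /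
              Real.log ((x / g : ℕ) : ℝ) ^ (U + 4 * B + 5) := by ring
          _ ≤ (x * (Y : ℝ) ^ 2) / (L / 2) ^ (U + 4 * B + 5) :=
              div_le_div₀ (by positivity) (mul_le_mul k1 k2 (by positivity) (by positivity))
                (by positivity) k3
          _ = E := by
              rw [hE, div_pow]
              field_simp
      have k4 : (g : ℝ) * (Y : ℝ) ^ 2 ≤ q * (Y : ℝ) ^ 2 := mul_le_mul_of_nonneg_right hgqR (by positivity)
      calc 2 * (g : ℝ) * (((x / g : ℕ) : ℝ) * ((Y / g : ℕ) : ℝ) ^ 2 /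
              Real.log ((x / g : ℕ) : ℝ) ^ (U + 4 * B + 5) + 2 * (Y : ℝ) ^ 2) + 2 * x =
            2 * ((g : ℝ) * (((x / g : ℕ) : ℝ) * ((Y / g : ℕ) : ℝ) ^ 2 /
              Real.log ((x / g : ℕ) : ℝ) ^ (U + 4 * B + 5))) + 4 * ((g : ℝ) * (Y : ℝ) ^ 2) + 2 * x := by ring
        _ ≤ 2 * E + 4 * (q * (Y : ℝ) ^ 2) + 2 * x := by linarith
        _ = _ := by ring
    -- pointwise
    set I : Finset (ℕ × DirichletCharacter ℂ q) := q.divisors ×ˢ univ with hI
    have hcardI : (I.card : ℝ) ≤ (q : ℝ) ^ 2 := by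
      rw [hI, card_product, card_univ]
      push_cast
      have k1 : (q.divisors.card : ℝ) ≤ q := by exact_mod_cast Nat.card_divisors_le_self q
      calc (q.divisors.card : ℝ) * Fintype.card (DirichletCharacter ℂ q) ≤ q * q :=
            mul_le_mul k1 (card_ch q) (by positivity) (by positivity)
        _ = _ := by ring
    have hpt : ∀ m ∈ Ioc x (2 * x), ‖∑ n ∈ Ioc m (m + Y),
        ((ArithmeticFunction.moebius n : ℤ) : ℂ) * e ((a : ℝ) * n / q)‖ ^ 2 ≤
        (q : ℝ) ^ 2 * ∑ i ∈ I, ‖∑ k ∈ Ioc (m / i.1) ((m + Y) / i.1), cM i.2 k‖ ^ 2 := by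
      intro m _
      rw [win_mu, ← sum_product']
      refine (cs_sum I (fun i => ((ArithmeticFunction.moebius i.1 : ℤ) : ℂ) * ww q (a * i.1) i.2)
        (fun i => ∑ k ∈ Ioc (m / i.1) ((m + Y) / i.1), cM i.2 k) ?_).trans
        (mul_le_mul_of_nonneg_right hcardI (sum_nonneg fun _ _ => by positivity))
      intro i _
      rw [norm_mul, Complex.norm_intCast]
      have k1 : |((ArithmeticFunction.moebius i.1 : ℤ) : ℝ)| ≤ 1 := by
        exact_mod_cast ArithmeticFunction.abs_moebius_le_one (n := i.1)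
      calc _ ≤ (1 : ℝ) * 1 := mul_le_mul k1 (ww_norm hq _ _) (norm_nonneg _) (by norm_num)
        _ = 1 := by norm_num
    refine (sum_le_sum hpt).trans ?_
    rw [← mul_sum, sum_comm]
    have hsum : ∑ i ∈ I, ∑ m ∈ Ioc x (2 * x), ‖∑ k ∈ Ioc (m / i.1) ((m + Y) / i.1), cM i.2 k‖ ^ 2 ≤
        (q : ℝ) ^ 2 * (2 * E + 4 * q * (Y : ℝ) ^ 2 + 2 * x) := by
      have k1 : ∀ i ∈ I, ∑ m ∈ Ioc x (2 * x), ‖∑ k ∈ Ioc (m / i.1) ((m + Y) / i.1), cM i.2 k‖ ^ 2 ≤
          2 * E + 4 * q * (Y : ℝ) ^ 2 + 2 * x := by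
        intro i hi
        rw [hI, mem_product] at hi
        exact hch i.1 hi.1 i.2
      refine (sum_le_sum k1).trans ?_
      rw [sum_const, nsmul_eq_mul]
      exact mul_le_mul_of_nonneg_right hcardI (by positivity)
    have hq4 : (q : ℝ) ^ 4 ≤ L ^ (4 * B) := by
      have := pow_le_pow_left₀ (by positivity) hqB 4
      rwa [← pow_mul, mul_comm B 4] at this
    have hq5 : (q : ℝ) ^ 5 ≤ L ^ (5 * B) := by
      have := pow_le_pow_left₀ (by positivity) hqB 5
      rwa [← pow_mul, mul_comm B 5] at this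
    refine (mul_le_mul_of_nonneg_left hsum (by positivity)).trans ?_
    have g1 : (q : ℝ) ^ 4 * (2 * E) ≤ x * (Y : ℝ) ^ 2 / L ^ U * (1 / 4) := by
      rw [hE]
      have k1 : (q : ℝ) ^ 4 * (2 * (2 ^ (U + 4 * B + 5) * (x * (Y : ℝ) ^ 2) / L ^ (U + 4 * B + 5))) =
          (2 * 2 ^ (U + 4 * B + 5) * (q : ℝ) ^ 4) * (x * (Y : ℝ) ^ 2) / L ^ (U + 4 * B + 5) := by ring
      rw [k1, mul_one_div, div_div, div_le_div_iff₀ (by positivity) (by positivity)]
      have k2 : 2 * 2 ^ (U + 4 * B + 5) * (q : ℝ) ^ 4 * (L ^ U * 4) ≤ L ^ (U + 4 * B + 5) := by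
        calc 2 * 2 ^ (U + 4 * B + 5) * (q : ℝ) ^ 4 * (L ^ U * 4) = 2 ^ (U + 4 * B + 8) * ((q : ℝ) ^ 4 * L ^ U) := by
              rw [show U + 4 * B + 8 = (U + 4 * B + 5) + 3 by ring, pow_add]; ring
          _ ≤ L * (L ^ (4 * B) * L ^ U) := mul_le_mul hL0
              (mul_le_mul_of_nonneg_right hq4 (by positivity)) (by positivity) (by positivity)
          _ = L ^ (4 * B + U + 1) := by ring
          _ ≤ _ := pow_le_pow_right₀ hL1 (by omega)
      calc 2 * 2 ^ (U + 4 * B + 5) * (q : ℝ) ^ 4 * (x * (Y : ℝ) ^ 2) * (L ^ U * 4) =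
            (x * (Y : ℝ) ^ 2) * (2 * 2 ^ (U + 4 * B + 5) * (q : ℝ) ^ 4 * (L ^ U * 4)) := by ring
        _ ≤ _ := mul_le_mul_of_nonneg_left k2 (by positivity)
    have g2 : (q : ℝ) ^ 4 * (4 * q * (Y : ℝ) ^ 2) ≤ x * (Y : ℝ) ^ 2 / L ^ U * (1 / 4) := by
      rw [mul_one_div, div_div, le_div_iff₀ (by positivity)]
      have k2 : 4 * (q : ℝ) ^ 5 * (L ^ U * 4) ≤ x := by
        calc 4 * (q : ℝ) ^ 5 * (L ^ U * 4) = 16 * ((q : ℝ) ^ 5 * L ^ U) := by ring
          _ ≤ L * (L ^ (5 * B) * L ^ U) := mul_le_mul (by linarith)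
              (mul_le_mul_of_nonneg_right hq5 (by positivity)) (by positivity) (by positivity)
          _ = L ^ (5 * B + U + 1) := by ring
          _ ≤ L ^ (5 * B + U + 5) := pow_le_pow_right₀ hL1 (by omega)
          _ ≤ _ := hxx
      calc (q : ℝ) ^ 4 * (4 * q * (Y : ℝ) ^ 2) * (L ^ U * 4) = (4 * (q : ℝ) ^ 5 * (L ^ U * 4)) * (Y : ℝ) ^ 2 := by ring
        _ ≤ _ := mul_le_mul_of_nonneg_right k2 (by positivity)
    have g3 : (q : ℝ) ^ 4 * (2 * x) ≤ x * (Y : ℝ) ^ 2 / L ^ U * (1 / 4) := by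
      rw [mul_one_div, div_div, le_div_iff₀ (by positivity)]
      have k2 : 2 * (q : ℝ) ^ 4 * (L ^ U * 4) ≤ (Y : ℝ) ^ 2 := by
        calc 2 * (q : ℝ) ^ 4 * (L ^ U * 4) = 8 * ((q : ℝ) ^ 4 * L ^ U) := by ring
          _ ≤ L * (L ^ (4 * B) * L ^ U) := mul_le_mul (by linarith)
              (mul_le_mul_of_nonneg_right hq4 (by positivity)) (by positivity) (by positivity)
          _ = L ^ (4 * B + U + 1) := by ring
          _ ≤ L ^ (5 * B + U + 5) := pow_le_pow_right₀ hL1 (by omega)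
          _ ≤ _ := hYsq
      calc (q : ℝ) ^ 4 * (2 * x) * (L ^ U * 4) = x * (2 * (q : ℝ) ^ 4 * (L ^ U * 4)) := by ring
        _ ≤ _ := mul_le_mul_of_nonneg_left k2 (by positivity)
    have hpos : 0 ≤ x * (Y : ℝ) ^ 2 / L ^ U := by positivity
    calc (q : ℝ) ^ 2 * ((q : ℝ) ^ 2 * (2 * E + 4 * q * (Y : ℝ) ^ 2 + 2 * x)) =
          (q : ℝ) ^ 4 * (2 * E) + (q : ℝ) ^ 4 * (4 * q * (Y : ℝ) ^ 2) + (q : ℝ) ^ 4 * (2 * x) := by ring
      _ ≤ x * (Y : ℝ) ^ 2 / L ^ U := by linarith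

end Pool.Agent.Q198.CR
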